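import Pool.Agent.H44R2.Stk.Defs

set_option autoImplicit false

/-! Task T8 (helper446): expansion of the zero. -/

namespace Pool.Agent.H446R2.Stk

open Finset Filter Topology
open Pool.Agent.H44R2.Stk

theorem hs0 (ρ : ℂ) : HasSum (fun n : ℕ => ρ ^ n / (n.factorial : ℂ)) (Complex.exp ρ) := by
  rw [Complex.exp_eq_exp_ℂ]
  exact NormedSpace.expSeries_div_hasSum_exp ρ

theorem hs1 (ρ : ℂ) :
    HasSum (fun n : ℕ => (n : ℂ) * (ρ ^ n / (n.factorial : ℂ))) (ρ * Complex.exp ρ) := by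
  rw [← hasSum_nat_add_iff' 1]
  simp only [Finset.range_one, Finset.sum_singleton, Nat.cast_zero, zero_mul, sub_zero]
  refine ((hs0 ρ).mul_left ρ).congr_fun ?_ |> id
  intro n
  rw [Nat.factorial_succ, pow_succ]
  push_cast
  have : (n : ℂ) + 1 ≠ 0 := by exact_mod_cast Nat.succ_ne_zero n
  have h2 : (n.factorial : ℂ) ≠ 0 := by exact_mod_cast n.factorial_ne_zero
  field_simp

theorem hs2 (ρ : ℂ) :
    HasSum (fun n : ℕ => (n : ℂ) * ((n : ℂ) - 1) * (ρ ^ n / (n.factorial : ℂ)))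
      (ρ ^ 2 * Complex.exp ρ) := by
  rw [← hasSum_nat_add_iff' 2]
  simp only [Finset.sum_range_succ, Finset.range_zero, Finset.sum_empty, Nat.cast_zero, zero_mul,
    Nat.cast_one, sub_self, mul_zero, add_zero, sub_zero]
  have := (hs0 ρ).mul_left (ρ ^ 2)
  refine this.congr_fun ?_ |> id
  intro n
  rw [Nat.factorial_succ, Nat.factorial_succ, pow_add]
  push_cast
  have h1 : (n : ℂ) + 1 ≠ 0 := by exact_mod_cast Nat.succ_ne_zero n
  have h3 : (n : ℂ) + 1 + 1 ≠ 0 := by exact_mod_cast Nat.succ_ne_zero (n + 1)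
  have h2 : (n.factorial : ℂ) ≠ 0 := by exact_mod_cast n.factorial_ne_zero
  field_simp
  ring

theorem gg_zero (y : ℂ) : gg y 0 0 = 1 ∧ gg y 1 0 = -y := by
  constructor
  · simp [gg]
  · simp [gg]

/-- the main part of the series -/
noncomputable def mn (t ρ : ℂ) (n : ℕ) : ℂ :=
  (t + t ^ 2 * ((n : ℂ) - (n : ℂ) * (n - 1) / 2)) * (ρ ^ n / (n.factorial : ℂ)) +
    (if n = 0 then 1 - t else if n = 1 then -(1 + t) * ρ - (t + t ^ 2) * ρ else 0)

theorem hasSum_mn (t ρ : ℂ) : HasSum (mn t ρ) (1 - (1 + t) * ρ + t * (Complex.exp ρ - 1 - ρ)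
      + t ^ 2 * ((ρ - ρ ^ 2 / 2) * Complex.exp ρ - ρ)) := by
  have h1 : HasSum (fun n : ℕ => (t + t ^ 2 * ((n : ℂ) - (n : ℂ) * (n - 1) / 2)) *
      (ρ ^ n / (n.factorial : ℂ)))
      (t * Complex.exp ρ + t ^ 2 * (ρ * Complex.exp ρ - ρ ^ 2 * Complex.exp ρ / 2)) := by
    have := ((hs0 ρ).mul_left t).add
      (((hs1 ρ).sub ((hs2 ρ).div_const 2)).mul_left (t ^ 2))
    refine this.congr_fun fun n => ?_
    ring
  have h2 : HasSum (fun n : ℕ => (if n = 0 then 1 - t else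
      if n = 1 then -(1 + t) * ρ - (t + t ^ 2) * ρ else 0 : ℂ))
      (∑ n ∈ range 2, (if n = 0 then 1 - t else
        if n = 1 then -(1 + t) * ρ - (t + t ^ 2) * ρ else 0 : ℂ)) := by
    apply hasSum_sum_of_ne_finset_zero
    intro n hn
    rw [Finset.mem_range] at hn
    rw [if_neg (by omega), if_neg (by omega)]
  have h3 := h1.add h2
  have e : t * Complex.exp ρ + t ^ 2 * (ρ * Complex.exp ρ - ρ ^ 2 * Complex.exp ρ / 2) +
      ∑ n ∈ range 2, (if n = 0 then 1 - t else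
        if n = 1 then -(1 + t) * ρ - (t + t ^ 2) * ρ else 0 : ℂ) =
      1 - (1 + t) * ρ + t * (Complex.exp ρ - 1 - ρ)
      + t ^ 2 * ((ρ - ρ ^ 2 / 2) * Complex.exp ρ - ρ) := by
    simp [Finset.sum_range_succ]
    ring
  rw [e] at h3
  exact h3

/-- `rho_eq`, with the statement of task T7 as a hypothesis -/
theorem rho_eq
    (gg_expand : ∀ t : ℂ, ‖t‖ ≤ 1 / 2 → ∀ n : ℕ, 2 ≤ n →
      ‖gg (1 + t) n 0 - (t + t ^ 2 * ((n : ℂ) - (n : ℂ) * (n - 1) / 2))‖ ≤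
        2 * ‖t‖ ^ 3 * 4 ^ n)
    (t : ℂ) (ht : ‖t‖ ≤ 1 / 2) (ρ : ℂ) (hρ : ‖ρ‖ ≤ 2)
    (h : HasSum (fun n => gg (1 + t) n 0 / (n.factorial : ℂ) * ρ ^ n) 0) :
    ‖1 - (1 + t) * ρ + t * (Complex.exp ρ - 1 - ρ)
      + t ^ 2 * ((ρ - ρ ^ 2 / 2) * Complex.exp ρ - ρ)‖ ≤ 2 * Real.exp 8 * ‖t‖ ^ 3 := by
  have h1 := (hasSum_mn t ρ).sub h
  rw [sub_zero] at h1
  have h8 : HasSum (fun n : ℕ => (2 * ‖t‖ ^ 3) * ((8 : ℝ) ^ n / (n.factorial : ℝ)))
      (2 * Real.exp 8 * ‖t‖ ^ 3) := by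
    have := (NormedSpace.expSeries_div_hasSum_exp (8 : ℝ)).mul_left (2 * ‖t‖ ^ 3)
    rw [← Real.exp_eq_exp_ℝ] at this
    have e : 2 * Real.exp 8 * ‖t‖ ^ 3 = 2 * ‖t‖ ^ 3 * Real.exp 8 := by ring
    rw [e]
    exact this
  refine h1.norm_le_of_bounded h8 fun n => ?_
  have hf : (0 : ℝ) < (n.factorial : ℝ) := by exact_mod_cast n.factorial_pos
  match n with
  | 0 =>
    have e : mn t ρ 0 - gg (1 + t) 0 0 / ((0 : ℕ).factorial : ℂ) * ρ ^ 0 = 0 := by
      simp [mn, gg]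
    rw [e, norm_zero]
    positivity
  | 1 =>
    have e : mn t ρ 1 - gg (1 + t) 1 0 / ((1 : ℕ).factorial : ℂ) * ρ ^ 1 = 0 := by
      simp [mn, gg]
    rw [e, norm_zero]
    positivity
  | n + 2 =>
    have e : mn t ρ (n + 2) - gg (1 + t) (n + 2) 0 / ((n + 2).factorial : ℂ) * ρ ^ (n + 2) =
        -(gg (1 + t) (n + 2) 0 - (t + t ^ 2 * (((n + 2 : ℕ) : ℂ) -
          ((n + 2 : ℕ) : ℂ) * (((n + 2 : ℕ) : ℂ) - 1) / 2))) *
          (ρ ^ (n + 2) / ((n + 2).factorial : ℂ)) := by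
      unfold mn
      rw [if_neg (by omega), if_neg (by omega)]
      ring
    rw [e, norm_mul, norm_neg, norm_div, norm_pow]
    have e2 : ‖((n + 2).factorial : ℂ)‖ = ((n + 2).factorial : ℝ) := by simp
    rw [e2]
    calc _ ≤ (2 * ‖t‖ ^ 3 * 4 ^ (n + 2)) * (2 ^ (n + 2) / ((n + 2).factorial : ℝ)) := by
          refine mul_le_mul (gg_expand t ht (n + 2) (by omega)) ?_ (by positivity) (by positivity)
          exact div_le_div_of_nonneg_right (pow_le_pow_left₀ (norm_nonneg _) hρ _) hf.le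
      _ = 2 * ‖t‖ ^ 3 * (8 ^ (n + 2) / ((n + 2).factorial : ℝ)) := by
          have : (8 : ℝ) ^ (n + 2) = 4 ^ (n + 2) * 2 ^ (n + 2) := by
            rw [← mul_pow]; norm_num
          rw [this]; ring

theorem rho_expand (C : ℝ) : ∃ δ > 0, ∃ C' > 0, ∀ t ρ : ℂ, ‖t‖ ≤ δ → ‖ρ - 1‖ ≤ C * ‖t‖ →
    ‖1 - (1 + t) * ρ + t * (Complex.exp ρ - 1 - ρ)
      + t ^ 2 * ((ρ - ρ ^ 2 / 2) * Complex.exp ρ - ρ)‖ ≤ 2 * Real.exp 8 * ‖t‖ ^ 3 →
    ‖ρ - (1 + (Complex.exp 1 - 3) * t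
      + (Complex.exp 1 ^ 2 - 9 / 2 * Complex.exp 1 + 5) * t ^ 2)‖ ≤ C' * ‖t‖ ^ 3 := by
  set D : ℝ := |C| + 1 with hD
  have hD1 : 1 ≤ D := by rw [hD]; linarith [abs_nonneg C]
  have hD0 : 0 < D := by linarith
  set KE : ℝ := 2 * Real.exp 8 with hKE
  have hKE0 : 0 < KE := by positivity
  refine ⟨1 / D, by positivity,
    5 * (5 * D + 5 / 2 + 12 * D ^ 2 + KE) + 12 * D ^ 2 + KE, by positivity, ?_⟩
  intro t ρ ht hρ hE
  set x : ℝ := ‖t‖ with hx
  have hx0 : 0 ≤ x := norm_nonneg t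
  have hx1 : x ≤ 1 := ht.trans (by rw [div_le_one hD0]; exact hD1)
  have hDx : D * x ≤ 1 := by
    rw [le_div_iff₀ hD0] at ht
    linarith
  set s : ℂ := ρ - 1 with hs
  have hρs : ρ = 1 + s := by rw [hs]; ring
  have hsD : ‖s‖ ≤ D * x := by
    refine hρ.trans (mul_le_mul_of_nonneg_right ?_ hx0)
    rw [hD]; linarith [le_abs_self C]
  have hs1 : ‖s‖ ≤ 1 := hsD.trans hDx
  set r : ℂ := Complex.exp s - 1 - s with hr
  have hrs : ‖r‖ ≤ ‖s‖ ^ 2 := Complex.norm_exp_sub_one_sub_id_le hs1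
  set a : ℂ := Complex.exp 1 with ha
  have ha3 : ‖a‖ ≤ 3 := by
    rw [ha, Complex.norm_exp]
    simp only [Complex.one_re]
    linarith [Real.exp_one_lt_d9]
  have hexp : Complex.exp ρ = a * (1 + s + r) := by
    rw [hρs, Complex.exp_add, hr]
    ring
  set R : ℂ := t * (a * r) + t ^ 2 * (a / 2 * (s + r) - s ^ 2 / 2 * (a * (1 + s + r)) - s) with hR
  have hmain : 1 - (1 + t) * ρ + t * (Complex.exp ρ - 1 - ρ)
      + t ^ 2 * ((ρ - ρ ^ 2 / 2) * Complex.exp ρ - ρ) =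
      -s + (a - 3) * t + (a - 2) * t * s + (a / 2 - 1) * t ^ 2 + R := by
    rw [hexp, hρs, hR]
    ring
  rw [hmain] at hE
  set E : ℂ := -s + (a - 3) * t + (a - 2) * t * s + (a / 2 - 1) * t ^ 2 + R with hEdef
  have hr1 : ‖r‖ ≤ ‖s‖ := by
    refine hrs.trans ?_
    nlinarith [norm_nonneg s]
  have hs0 := norm_nonneg s
  have hR' : ‖R‖ ≤ 12 * D ^ 2 * x ^ 3 := by
    have h1 : ‖t * (a * r)‖ ≤ 3 * D ^ 2 * x ^ 3 := by
      rw [norm_mul, norm_mul]
      calc ‖t‖ * (‖a‖ * ‖r‖) ≤ x * (3 * (D * x) ^ 2) := by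
            refine mul_le_mul_of_nonneg_left ?_ hx0
            refine mul_le_mul ha3 (hrs.trans ?_) (norm_nonneg _) (by norm_num)
            exact pow_le_pow_left₀ hs0 hsD 2
        _ = 3 * D ^ 2 * x ^ 3 := by ring
    have h2 : ‖a / 2 * (s + r) - s ^ 2 / 2 * (a * (1 + s + r)) - s‖ ≤ 9 * ‖s‖ := by
      have h21 : ‖a / 2 * (s + r)‖ ≤ 3 / 2 * (2 * ‖s‖) := by
        rw [norm_mul]
        refine mul_le_mul ?_ ?_ (norm_nonneg _) (by norm_num)
        · rw [norm_div]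
          simp only [Complex.norm_ofNat]
          linarith
        · refine (norm_add_le _ _).trans ?_
          linarith
      have h22 : ‖s ^ 2 / 2 * (a * (1 + s + r))‖ ≤ ‖s‖ / 2 * (3 * 3) := by
        rw [norm_mul, norm_mul]
        refine mul_le_mul ?_ ?_ (by positivity) (by positivity)
        · rw [norm_div, norm_pow]
          simp only [Complex.norm_ofNat]
          nlinarith
        · refine mul_le_mul ha3 ?_ (norm_nonneg _) (by norm_num)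
          have h3 := norm_add_le (1 + s) r
          have h4 := norm_add_le (1 : ℂ) s
          rw [norm_one] at h4
          linarith
      have h3 := norm_sub_le (a / 2 * (s + r) - s ^ 2 / 2 * (a * (1 + s + r))) s
      have h4 := norm_sub_le (a / 2 * (s + r)) (s ^ 2 / 2 * (a * (1 + s + r)))
      linarith
    have h3 : ‖t ^ 2 * (a / 2 * (s + r) - s ^ 2 / 2 * (a * (1 + s + r)) - s)‖ ≤
        9 * D ^ 2 * x ^ 3 := by
      rw [norm_mul, norm_pow]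
      calc ‖t‖ ^ 2 * ‖a / 2 * (s + r) - s ^ 2 / 2 * (a * (1 + s + r)) - s‖
          ≤ x ^ 2 * (9 * (D * x)) := by
            refine mul_le_mul_of_nonneg_left (h2.trans ?_) (by positivity)
            linarith
        _ = 9 * D * x ^ 3 := by ring
        _ ≤ 9 * D ^ 2 * x ^ 3 := by
            refine mul_le_mul_of_nonneg_right ?_ (by positivity)
            nlinarith
    have h4 := norm_add_le (t * (a * r))
      (t ^ 2 * (a / 2 * (s + r) - s ^ 2 / 2 * (a * (1 + s + r)) - s))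
    rw [← hR] at h4
    linarith
  have ha2 : ‖a - 2‖ ≤ 5 := by
    have := norm_sub_le a 2
    simp only [Complex.norm_ofNat] at this
    linarith
  have ha21 : ‖a / 2 - 1‖ ≤ 5 / 2 := by
    have := norm_sub_le (a / 2) 1
    rw [norm_div] at this
    simp only [Complex.norm_ofNat, norm_one] at this
    linarith
  have hx32 : x ^ 3 ≤ x ^ 2 := by nlinarith [sq_nonneg x]
  have hfirst : ‖s - (a - 3) * t‖ ≤ (5 * D + 5 / 2 + 12 * D ^ 2 + KE) * x ^ 2 := by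
    have e : s - (a - 3) * t = (a - 2) * t * s + (a / 2 - 1) * t ^ 2 + R - E := by
      rw [hEdef]; ring
    rw [e]
    have h1 : ‖(a - 2) * t * s‖ ≤ 5 * D * x ^ 2 := by
      rw [norm_mul, norm_mul]
      calc ‖a - 2‖ * ‖t‖ * ‖s‖ ≤ 5 * x * (D * x) :=
            mul_le_mul (mul_le_mul_of_nonneg_right ha2 hx0) hsD hs0 (by positivity)
        _ = 5 * D * x ^ 2 := by ring
    have h2 : ‖(a / 2 - 1) * t ^ 2‖ ≤ 5 / 2 * x ^ 2 := by
      rw [norm_mul, norm_pow]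
      exact mul_le_mul_of_nonneg_right ha21 (by positivity)
    have h3 := norm_sub_le ((a - 2) * t * s + (a / 2 - 1) * t ^ 2 + R) E
    have h4 := norm_add_le ((a - 2) * t * s + (a / 2 - 1) * t ^ 2) R
    have h5 := norm_add_le ((a - 2) * t * s) ((a / 2 - 1) * t ^ 2)
    have h6 : 12 * D ^ 2 * x ^ 3 ≤ 12 * D ^ 2 * x ^ 2 :=
      mul_le_mul_of_nonneg_left hx32 (by positivity)
    have h7 : KE * x ^ 3 ≤ KE * x ^ 2 := mul_le_mul_of_nonneg_left hx32 hKE0.le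
    linarith
  have e : ρ - (1 + (a - 3) * t + (a ^ 2 - 9 / 2 * a + 5) * t ^ 2) =
      (a - 2) * t * (s - (a - 3) * t) + R - E := by
    rw [hEdef, hρs]; ring
  rw [e]
  have h1 : ‖(a - 2) * t * (s - (a - 3) * t)‖ ≤
      5 * (5 * D + 5 / 2 + 12 * D ^ 2 + KE) * x ^ 3 := by
    rw [norm_mul, norm_mul]
    calc ‖a - 2‖ * ‖t‖ * ‖s - (a - 3) * t‖
        ≤ 5 * x * ((5 * D + 5 / 2 + 12 * D ^ 2 + KE) * x ^ 2) :=
          mul_le_mul (mul_le_mul_of_nonneg_right ha2 hx0) hfirst (norm_nonneg _) (by positivity)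
      _ = _ := by ring
  have h3 := norm_sub_le ((a - 2) * t * (s - (a - 3) * t) + R) E
  have h4 := norm_add_le ((a - 2) * t * (s - (a - 3) * t)) R
  linarith

end Pool.Agent.H446R2.Stk
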